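import Pool.Agent.J4H48.LA.Stm2
import Pool.Agent.J4H53.LA.Pos

set_option autoImplicit false

/-! Project LA, version 2, piece POS2: positivity with the weights `log 2`. -/

namespace Pool.Agent.J4H87.LA

open Finset Pool.Agent.J4H48.LA Pool.Agent.J4H53.LA

section

variable {m : ℕ} {cls : Fin (m + 1) → Fin 3} {pos : Fin (m + 1) → ℤ}

theorem gen3 (hG : Gen cls pos) {e f t : Fin (m + 1)} (h1 : cls e ≠ cls f)
    (h2 : cls t ≠ cls e) (h3 : cls t ≠ cls f) : pos e + pos f + pos t ≠ 0 := by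
  intro h0
  have h01 : ∀ a b c, cls a = 0 → cls b = 1 → cls c = 2 → pos a + pos b + pos c = 0 → False :=
    fun a b c ha hb hc h => hG.gen a b c ha hb hc h
  have H : ∀ k : Fin 3, k = 0 ∨ k = 1 ∨ k = 2 := by decide
  rcases H (cls e) with he | he | he <;> rcases H (cls f) with hf | hf | hf <;>
    rcases H (cls t) with ht | ht | ht <;> first
    | exact absurd (he.trans hf.symm) h1
    | exact absurd (ht.trans he.symm) h2
    | exact absurd (ht.trans hf.symm) h3
    | exact h01 e f t he hf ht (by omega)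
    | exact h01 e t f he ht hf (by omega)
    | exact h01 f e t hf he ht (by omega)
    | exact h01 f t e hf ht he (by omega)
    | exact h01 t e f ht he hf (by omega)
    | exact h01 t f e ht hf he (by omega)

/-- small weights at three different lines -/
def Bd (cls : Fin (m + 1) → Fin 3) (pos : Fin (m + 1) → ℤ) (e f t : Fin (m + 1)) : Prop :=
  ww cls pos e f t < Real.log 2 ∧ e ≠ f ∧ f ≠ t ∧ t ≠ e

theorem Bd_cyc (e f t : Fin (m + 1)) : Bd cls pos f t e ↔ Bd cls pos e f t := by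
  unfold Bd
  rw [ww_cyc]
  tauto

theorem del_of_Bd (hG : Gen cls pos) {e f t : Fin (m + 1)} (hef : cls e ≠ cls f)
    (h : Bd cls pos e f t) : del cls pos e f t = 1 ∨ del cls pos e f t = -1 := by
  obtain ⟨hw, h1, h2, h3⟩ := h
  have h0 : del cls pos e f t ≠ 0 := by
    unfold del
    split_ifs with a b
    · intro h
      exact h3 (hG.inj _ _ a (by omega))
    · intro h
      exact h2 (hG.inj _ _ b.symm (by omega))
    · exact gen3 hG hef a b
  rw [ww_del cls pos hef] at hw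
  by_contra hcon
  have h4 : 2 ≤ |del cls pos e f t| := by
    rw [not_or] at hcon
    rcases abs_cases (del cls pos e f t) with hh | hh <;> omega
  have h5 : Real.log 2 ≤ Real.log (del cls pos e f t : ℝ) := by
    rw [← Real.log_abs (del cls pos e f t : ℝ)]
    refine Real.log_le_log (by norm_num) ?_
    exact_mod_cast h4
  linarith

open Classical in
theorem card_Bd (hG : Gen cls pos) {e f : Fin (m + 1)} (hef : cls e ≠ cls f) :
    (univ.filter fun t => Bd cls pos e f t).card ≤ 6 := by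
  have h1 : ((univ : Finset (Fin 3)) ×ˢ ({1, -1} : Finset ℤ)).card = 6 := by
    rw [card_product]
    rfl
  rw [← h1]
  refine card_le_card_of_injOn (fun t => (cls t, del cls pos e f t)) ?_ ?_
  · intro t ht
    rw [mem_coe, mem_filter] at ht
    rw [mem_coe, mem_product]
    refine ⟨mem_univ _, ?_⟩
    rcases del_of_Bd hG hef ht.2 with h | h
    · simp [h]
    · simp [h]
  · intro s _ t _ hst
    obtain ⟨h2, h3⟩ := Prod.mk.inj hst
    refine hG.inj _ _ h2 ?_
    unfold del at h3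
    rw [h2] at h3
    split_ifs at h3 <;> omega

theorem hcyc (G : Fin (m + 1) → Fin (m + 1) → Fin (m + 1) → ℝ) :
    ∑ e, ∑ f, ∑ t, G f t e = ∑ e, ∑ f, ∑ t, G e f t := by
  rw [sum_comm]
  refine sum_congr rfl (fun f _ => ?_)
  rw [sum_comm]

theorem sum_sq {c : Fin (m + 1) → Fin (m + 1) → ℝ} (hc : Circ cls c) :
    ∑ e, ∑ f, ∑ t, (c e f + c f t + c t e) ^ 2 = 3 * ((m : ℝ) + 1) * ∑ e, ∑ f, (c e f) ^ 2 := by
  have a1 : ∑ e, ∑ f, ∑ _t : Fin (m + 1), (c e f) ^ 2 = ((m : ℝ) + 1) * ∑ e, ∑ f, (c e f) ^ 2 := by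
    rw [mul_sum]
    refine sum_congr rfl (fun e _ => ?_)
    rw [mul_sum]
    refine sum_congr rfl (fun f _ => ?_)
    simp
  have a2 : ∑ e, ∑ f, ∑ t, c e f * c f t = 0 := by
    refine sum_eq_zero (fun e _ => sum_eq_zero (fun f _ => ?_))
    rw [← mul_sum, hc.flow f, mul_zero]
  have b1 := hcyc (m := m) (fun e f _ => (c e f) ^ 2)
  have b2 := hcyc (m := m) (fun _ f t => (c f t) ^ 2)
  have d1 := hcyc (m := m) (fun e f t => c e f * c f t)
  have d2 := hcyc (m := m) (fun e f t => c f t * c t e)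
  have key : ∑ e, ∑ f, ∑ t, (c e f + c f t + c t e) ^ 2 =
      (∑ e, ∑ f, ∑ _t : Fin (m + 1), (c e f) ^ 2) + (∑ _e : Fin (m + 1), ∑ f, ∑ t, (c f t) ^ 2) +
      (∑ e, ∑ _f : Fin (m + 1), ∑ t, (c t e) ^ 2) + 2 * (∑ e, ∑ f, ∑ t, c e f * c f t) +
      2 * (∑ e, ∑ f, ∑ t, c f t * c t e) + 2 * (∑ e, ∑ f, ∑ t, c t e * c e f) := by
    simp only [mul_sum, ← sum_add_distrib]
    refine sum_congr rfl (fun e _ => sum_congr rfl (fun f _ => sum_congr rfl (fun t _ => ?_)))
    ring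
  rw [key]
  rw [a1] at b1
  rw [a2] at d1
  simp only at b1 b2 d1 d2
  linarith

open Classical in
theorem lower {c : Fin (m + 1) → Fin (m + 1) → ℝ} (hG : Gen cls pos) (hc : Circ cls c) :
    3 * (Real.log 2 * (((m : ℝ) - 17) * ∑ e, ∑ f, (c e f) ^ 2)) ≤
      ∑ e, ∑ f, ∑ t, (c e f + c f t + c t e) ^ 2 * ww cls pos e f t := by
  have hl2 : 0 < Real.log 2 := Real.log_pos (by norm_num)
  obtain ⟨R, hR⟩ : ∃ R : Fin (m + 1) → Fin (m + 1) → Fin (m + 1) → ℝ,
    R = fun e f t => if Bd cls pos e f t then (1 : ℝ) else 0 := ⟨_, rfl⟩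
  have hRc : ∀ e f t, R f t e = R e f t := by
    intro e f t
    rw [hR]
    simp only [Bd_cyc e f t]
  have cee : ∀ e, c e e = 0 := fun e => hc.same e e rfl
  have hpt : ∀ e f t, Real.log 2 * ((c e f + c f t + c t e) ^ 2 -
      3 * (R e f t * (c e f) ^ 2 + R e f t * (c f t) ^ 2 + R e f t * (c t e) ^ 2)) ≤
      (c e f + c f t + c t e) ^ 2 * ww cls pos e f t := by
    intro e f t
    by_cases h : Bd cls pos e f t
    · have h1 : R e f t = 1 := by rw [hR]; exact if_pos h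
      rw [h1]
      have h2 : 0 ≤ (c e f + c f t + c t e) ^ 2 * ww cls pos e f t :=
        mul_nonneg (sq_nonneg _) (ww_nonneg cls pos e f t)
      refine le_trans ?_ h2
      refine mul_nonpos_of_nonneg_of_nonpos hl2.le ?_
      nlinarith [sq_nonneg (c e f - c f t), sq_nonneg (c f t - c t e), sq_nonneg (c t e - c e f)]
    · have h1 : R e f t = 0 := by rw [hR]; exact if_neg h
      rw [h1]
      by_cases h2 : Real.log 2 ≤ ww cls pos e f t
      · have := mul_le_mul_of_nonneg_left h2 (sq_nonneg (c e f + c f t + c t e))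
        linarith
      · have h3 : c e f + c f t + c t e = 0 := by
          by_contra hne
          apply h
          refine ⟨not_le.1 h2, ?_, ?_, ?_⟩
          · rintro rfl
            apply hne
            rw [cee, hc.anti e t]
            ring
          · rintro rfl
            apply hne
            rw [cee, hc.anti e f]
            ring
          · rintro rfl
            apply hne
            rw [cee, hc.anti t f]
            ring
        rw [h3]
        norm_num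
  have hB1 : ∑ e, ∑ f, ∑ t, R e f t * (c e f) ^ 2 ≤ 6 * ∑ e, ∑ f, (c e f) ^ 2 := by
    rw [mul_sum]
    refine sum_le_sum (fun e _ => ?_)
    rw [mul_sum]
    refine sum_le_sum (fun f _ => ?_)
    rw [← sum_mul]
    by_cases h : cls e = cls f
    · rw [hc.same e f h]
      norm_num
    · refine mul_le_mul_of_nonneg_right ?_ (sq_nonneg _)
      rw [hR]
      simp only
      rw [← sum_filter, sum_const, nsmul_eq_mul, mul_one]
      exact_mod_cast card_Bd hG h
  have hB2 : ∑ e, ∑ f, ∑ t, R e f t * (c f t) ^ 2 = ∑ e, ∑ f, ∑ t, R e f t * (c e f) ^ 2 := by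
    rw [← hcyc (fun e f t => R e f t * (c e f) ^ 2)]
    simp only [hRc]
  have hB3 : ∑ e, ∑ f, ∑ t, R e f t * (c t e) ^ 2 = ∑ e, ∑ f, ∑ t, R e f t * (c e f) ^ 2 := by
    rw [← hB2, ← hcyc (fun e f t => R e f t * (c f t) ^ 2)]
    simp only [hRc]
  have hsum : Real.log 2 * ((∑ e, ∑ f, ∑ t, (c e f + c f t + c t e) ^ 2) -
      3 * ((∑ e, ∑ f, ∑ t, R e f t * (c e f) ^ 2) + (∑ e, ∑ f, ∑ t, R e f t * (c f t) ^ 2) +
        (∑ e, ∑ f, ∑ t, R e f t * (c t e) ^ 2))) ≤
      ∑ e, ∑ f, ∑ t, (c e f + c f t + c t e) ^ 2 * ww cls pos e f t := by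
    have h1 : ∑ e, ∑ f, ∑ t, Real.log 2 * ((c e f + c f t + c t e) ^ 2 -
      3 * (R e f t * (c e f) ^ 2 + R e f t * (c f t) ^ 2 + R e f t * (c t e) ^ 2)) ≤
      ∑ e, ∑ f, ∑ t, (c e f + c f t + c t e) ^ 2 * ww cls pos e f t :=
      sum_le_sum (fun e _ => sum_le_sum (fun f _ => sum_le_sum (fun t _ => hpt e f t)))
    refine le_of_eq_of_le ?_ h1
    simp only [← mul_sum, sum_sub_distrib, sum_add_distrib]
  rw [hB2, hB3, sum_sq hc] at hsum
  refine le_trans ?_ hsum
  rw [← mul_assoc, mul_comm (3 : ℝ), mul_assoc]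
  refine mul_le_mul_of_nonneg_left ?_ hl2.le
  nlinarith [hB1]

end

theorem t_POS2 : S_POS2 := by
  intro m cls pos hG ℓ τ P hℓ0 hτ hℓ hP c hc h0
  obtain ⟨⟨e0, f0⟩, -, hmax⟩ := exists_max_image (univ : Finset (Fin (m + 1) × Fin (m + 1)))
    (fun x => |c x.1 x.2|) ⟨(0, 0), mem_univ _⟩
  obtain ⟨N, hN⟩ : ∃ N : ℝ, N = |c e0 f0| := ⟨_, rfl⟩
  have hN0 : 0 ≤ N := by rw [hN]; exact abs_nonneg _
  have hcN : ∀ s t, |c s t| ≤ N := fun s t => by
    rw [hN]
    exact hmax (s, t) (mem_univ _)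
  have hX : ∀ e f, c e f * (c e f * ℓ + ∑ t, (c e f + c f t + c t e) * ww cls pos e f t) ≤
      N * (3 * N * τ * ((m : ℝ) + 1) ^ 2) := by
    intro e f
    by_cases h : cls e = cls f
    · rw [hc.same e f h, zero_mul]
      positivity
    · refine (le_abs_self _).trans ?_
      rw [abs_mul]
      exact mul_le_mul (hcN e f) (pair_bound hτ hN0 h (hP e f h) hc hcN (h0 e f h))
        (abs_nonneg _) hN0
  have hsum : ∑ e, ∑ f, c e f * (c e f * ℓ + ∑ t, (c e f + c f t + c t e) *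
      ww cls pos e f t) ≤ ((m : ℝ) + 1) * (((m : ℝ) + 1) *
        (N * (3 * N * τ * ((m : ℝ) + 1) ^ 2))) := by
    have hc1 : ((univ : Finset (Fin (m + 1))).card : ℝ) = (m : ℝ) + 1 := by simp
    rw [← hc1, ← nsmul_eq_mul, ← nsmul_eq_mul, hc1]
    refine sum_le_card_nsmul _ _ _ (fun e _ => ?_)
    exact sum_le_card_nsmul _ _ _ (fun f _ => hX e f)
  have hexp : ∑ e, ∑ f, c e f * (c e f * ℓ + ∑ t, (c e f + c f t + c t e) *
      ww cls pos e f t) = ℓ * ∑ e, ∑ f, (c e f) ^ 2 +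
        ∑ e, ∑ f, ∑ t, c e f * ((c e f + c f t + c t e) * ww cls pos e f t) := by
    rw [mul_sum, ← sum_add_distrib]
    refine sum_congr rfl (fun e _ => ?_)
    rw [mul_sum, ← sum_add_distrib]
    refine sum_congr rfl (fun f _ => ?_)
    rw [mul_add, mul_sum]
    ring
  have hS0 : 0 ≤ ∑ e, ∑ f, (c e f) ^ 2 :=
    sum_nonneg (fun e _ => sum_nonneg (fun f _ => sq_nonneg _))
  have hl2 : 0 < Real.log 2 := Real.log_pos (by norm_num)
  have hpos : Real.log 2 * (max 0 ((m : ℝ) - 17) * ∑ e, ∑ f, (c e f) ^ 2) ≤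
      ∑ e, ∑ f, ∑ t, c e f * ((c e f + c f t + c t e) * ww cls pos e f t) := by
    have e1 := hcyc (fun e f t => c e f * ((c e f + c f t + c t e) * ww cls pos e f t))
    have e2 := hcyc (fun e f t => c f t * ((c f t + c t e + c e f) * ww cls pos f t e))
    have e3 : 0 ≤ ∑ e, ∑ f, ∑ t, (c e f + c f t + c t e) ^ 2 * ww cls pos e f t :=
      sum_nonneg (fun e _ => sum_nonneg (fun f _ => sum_nonneg (fun t _ =>
        mul_nonneg (sq_nonneg _) (ww_nonneg cls pos e f t))))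
    have e5 := lower hG hc
    have e4 : ∑ e, ∑ f, ∑ t, (c e f + c f t + c t e) ^ 2 * ww cls pos e f t =
        ∑ e, ∑ f, ∑ t, c e f * ((c e f + c f t + c t e) * ww cls pos e f t) +
        ∑ e, ∑ f, ∑ t, c f t * ((c f t + c t e + c e f) * ww cls pos f t e) +
        ∑ e, ∑ f, ∑ t, c t e * ((c t e + c e f + c f t) * ww cls pos t e f) := by
      simp only [← sum_add_distrib]
      refine sum_congr rfl (fun e _ => sum_congr rfl (fun f _ => sum_congr rfl (fun t _ => ?_)))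
      rw [ww_cyc cls pos e f t, ← ww_cyc cls pos t e f]
      ring
    rcases le_total ((m : ℝ) - 17) 0 with h | h
    · rw [max_eq_left h, zero_mul, mul_zero]
      linarith
    · rw [max_eq_right h]
      linarith
  have hsq : N ^ 2 ≤ ∑ e, ∑ f, (c e f) ^ 2 := by
    have h1 : (c e0 f0) ^ 2 ≤ ∑ f, (c e0 f) ^ 2 :=
      single_le_sum (f := fun f => (c e0 f) ^ 2) (fun f _ => sq_nonneg _) (mem_univ f0)
    have h2 : ∑ f, (c e0 f) ^ 2 ≤ ∑ e, ∑ f, (c e f) ^ 2 :=
      single_le_sum (f := fun e => ∑ f, (c e f) ^ 2)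
        (fun e _ => sum_nonneg (fun f _ => sq_nonneg _)) (mem_univ e0)
    rw [hN, sq_abs]
    exact h1.trans h2
  obtain ⟨K, hK⟩ : ∃ K : ℝ, K = ℓ + Real.log 2 * max 0 ((m : ℝ) - 17) := ⟨_, rfl⟩
  have hK0 : 0 ≤ K := by
    rw [hK]
    exact add_nonneg hℓ0 (mul_nonneg hl2.le (le_max_left _ _))
  have hfin : K * N ^ 2 ≤ 3 * τ * ((m : ℝ) + 1) ^ 4 * N ^ 2 := by
    have h1 : K * N ^ 2 ≤ K * ∑ e, ∑ f, (c e f) ^ 2 := mul_le_mul_of_nonneg_left hsq hK0
    have h2 : ((m : ℝ) + 1) * (((m : ℝ) + 1) * (N * (3 * N * τ * ((m : ℝ) + 1) ^ 2))) =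
        3 * τ * ((m : ℝ) + 1) ^ 4 * N ^ 2 := by ring
    have h3 : K * ∑ e, ∑ f, (c e f) ^ 2 = ℓ * ∑ e, ∑ f, (c e f) ^ 2 +
        Real.log 2 * (max 0 ((m : ℝ) - 17) * ∑ e, ∑ f, (c e f) ^ 2) := by
      rw [hK]
      ring
    linarith
  have hN00 : N = 0 := by
    by_contra hne
    have h1 : 0 < N ^ 2 := by positivity
    rw [← hK] at hℓ
    nlinarith
  funext e f
  have := hcN e f
  rw [hN00] at this
  exact abs_nonpos_iff.1 this

end Pool.Agent.J4H87.LA
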